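import Pool.Agent.D0H69.L0D.Stm
import Pool.Agent.D0H10.L9D.Box

/-!
# Project L0, module DENM: the count in a box

Adapted from the file `D0H10/L9D/Box.lean` of helper10. The additional index `none` is an auxiliary
vertex whose value is that of one of the large primes.
-/

set_option autoImplicit false

open scoped Classical

namespace Pool.Agent.D0H69.L0D

open Finset
open Pool.Agent.Y692.QS (Ei)
open Pool.Agent.Y715.T.Rec (cs)
open Pool.Agent.Y715.T.RecG (Pq)
open Pool.Agent.Y703.XK (prs HB S_EQ S_LA GdA c9)
open Pool.Agent.Y688.XK (lb cs_symm sum_un ext_sum HB_sub)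
open Pool.Agent.R419.KF (wt wt_one wt_ne)
open Pool.Agent.N883.FF (nq)
open Pool.Agent.D0H43.L3 (yq)
open Pool.Agent.D0H10.L9D (NdN)
open Pool.Agent.D0H10.L9D.Box (LNB nd_iff)

namespace Box

/-- the matrix of the small primes, of `ω` and of the auxiliary vertex -/
noncomputable def Am (y : ZMod 3) (M S₀ : Finset Ei) :
    Option (Option S₀) → Option (Option S₀) → ZMod 3
  | some (some u), some (some v) => wt M u * wt M v * cs u v
  | some none, some (some u) => wt M u * nq u
  | some (some u), some none => wt M u * nq u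
  | none, some (some u) => -(wt M u * nq u)
  | some (some u), none => -(wt M u * nq u)
  | none, some none => -y
  | some none, none => -y
  | some none, some none => 0
  | none, none => 0

/-- the mark of the auxiliary vertex -/
noncomputable def sg {ι : Type} (j0 l : ι) : ZMod 3 := if l = j0 then 1 else 0

theorem sg_self {ι : Type} (j0 : ι) : sg j0 j0 = 1 := if_pos rfl

theorem sg_ne {ι : Type} {j0 l : ι} (h : l ≠ j0) : sg j0 l = 0 := if_neg h

/-- the matrix of the labels -/
noncomputable def Bm {ι : Type} (j0 : ι) (M S₀ : Finset Ei) (β : ι → S₀ → ZMod 3)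
    (γ : ι → ZMod 3) : Option (Option S₀) → ι → ZMod 3
  | some (some u), l => wt M u * β l u
  | some none, l => γ l
  | none, l => -γ l + sg j0 l

/-- the sum of the `yq` -/
noncomputable def yy {ι : Type} [Fintype ι] (M S₀ : Finset Ei) (δ : ι → ZMod 3) :
    ZMod 3 := ∑ u : S₀, wt M u * yq u + ∑ l, δ l

/-- the index of the auxiliary vertex exists -/
theorem ex_j0 {ι : Type} [Fintype ι] {S₀ : Finset Ei} (β : ι → S₀ → ZMod 3) (γ δ : ι → ZMod 3)
    (h : LNB S₀ β γ δ) (hc : S₀.card + 2 < Fintype.card ι) :
    ∃ j0 : ι, ∀ (w : S₀ → ZMod 3) (t : ZMod 3), ((∃ u, w u ≠ 0) ∨ t ≠ 0) →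
      ∃ k, k ≠ j0 ∧ ∑ u, w u * β k u + t * γ k ≠ 0 := by
  by_contra hno
  push Not at hno
  obtain ⟨Φ, hΦ⟩ : ∃ Φ : ((S₀ → ZMod 3) × ZMod 3) →ₗ[ZMod 3] (ι → ZMod 3),
      ∀ w t k, Φ (w, t) k = ∑ u, w u * β k u + t * γ k := by
    refine ⟨{ toFun := fun x k => ∑ u, x.1 u * β k u + x.2 * γ k
              map_add' := ?_
              map_smul' := ?_ }, fun w t k => rfl⟩
    · intro x y
      funext k
      simp only [Prod.fst_add, Prod.snd_add, Pi.add_apply, add_mul, Finset.sum_add_distrib]
      ring
    · intro c x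
      funext k
      simp only [Prod.smul_fst, Prod.smul_snd, Pi.smul_apply, smul_eq_mul, RingHom.id_apply,
        mul_add, Finset.mul_sum, mul_assoc]
  have hsing : ∀ j : ι, (Pi.single j 1 : ι → ZMod 3) ∈ LinearMap.range Φ := by
    intro j
    obtain ⟨w, t, hwt, h0⟩ := hno j
    obtain ⟨k, hk⟩ := h w t 0 (by
      rcases hwt with h1 | h1
      · exact Or.inl h1
      · exact Or.inr (Or.inl h1))
    rw [zero_mul, add_zero] at hk
    have hkj : k = j := by
      by_contra hne
      exact hk (h0 k hne)
    subst hkj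
    refine ⟨(∑ u, w u * β k u + t * γ k)⁻¹ • (w, t), ?_⟩
    rw [map_smul]
    funext l
    rw [Pi.smul_apply, hΦ, smul_eq_mul]
    by_cases hl : l = k
    · rw [hl, Pi.single_eq_same]
      exact inv_mul_cancel₀ hk
    · rw [Pi.single_eq_of_ne hl, h0 l hl, mul_zero]
  have hsur : Function.Surjective Φ := by
    intro f
    have h1 : f ∈ LinearMap.range Φ := by
      have h2 : f = ∑ j, f j • (Pi.single j 1 : ι → ZMod 3) := by
        funext l
        rw [Finset.sum_apply, Finset.sum_eq_single l]
        · rw [Pi.smul_apply, Pi.single_eq_same, smul_eq_mul, mul_one]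
        · intro j _ hj
          rw [Pi.smul_apply, Pi.single_eq_of_ne (Ne.symm hj), smul_eq_mul, mul_zero]
        · intro h3
          exact absurd (Finset.mem_univ l) h3
      rw [h2]
      exact Submodule.sum_mem _ fun j _ => Submodule.smul_mem _ _ (hsing j)
    exact h1
  have hcard := Fintype.card_le_of_surjective Φ hsur
  rw [Fintype.card_prod, Fintype.card_fun, Fintype.card_fun, ZMod.card, Fintype.card_coe,
    ← pow_succ] at hcard
  have h2 := (Nat.pow_le_pow_iff_right (by norm_num : 1 < 3)).1 hcard
  omega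

section one
variable {ι : Type} [Fintype ι] [LinearOrder ι] {M S₀ : Finset Ei} {p : ι → Ei}

theorem gdm_iff (j0 : ι) (hM : M ⊆ S₀) (hp : Function.Injective p) (hpr : ∀ k, Pq (p k))
    (hS₀ : ∀ u ∈ S₀, Pq u) (hd : ∀ k, p k ∉ S₀)
    (hN : ∑ u : S₀, wt M u * nq u + ∑ l, nq (p l) = 0) :
    GdM M (S₀ ∪ univ.image p) ↔ GdA (Am (yy M S₀ fun k => yq (p k)) M S₀)
      (Bm j0 M S₀ (fun k => lb S₀ (p k)) (fun k => nq (p k)))
      (Pool.Agent.Y703.XK.ext fun e : prs ι => cs (p e.1.1) (p e.1.2)) := by
  have hw : ∀ k, wt M (p k) = 1 := fun k => wt_one fun h => hd k (hM h)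
  obtain ⟨y, hy⟩ : ∃ y : ZMod 3, y = yy M S₀ fun k => yq (p k) := ⟨_, rfl⟩
  have hy' : y = ∑ u : S₀, wt M u * yq u + ∑ l, yq (p l) := hy
  rw [← hy]
  -- the rows of the block system
  have hrowu : ∀ (c : Option (Option S₀) → ZMod 3) (d : ι → ZMod 3) (u : S₀),
      (∑ v, Am y M S₀ (some (some u)) v * (c v - c (some (some u))) +
        ∑ l, Bm j0 M S₀ (fun k => lb S₀ (p k)) (fun k => nq (p k))
          (some (some u)) l * (d l - c (some (some u)))) =
      wt M u * (∑ v : S₀, wt M v * cs u v * (c (some (some v)) - c (some (some u))) +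
        ∑ l, cs u (p l) * (d l - c (some (some u))) + (c (some none) - c none) * nq u) := by
    intro c d u
    rw [Fintype.sum_option, Fintype.sum_option]
    have e1 : ∑ v : S₀, Am y M S₀ (some (some u)) (some (some v)) *
        (c (some (some v)) - c (some (some u))) =
        wt M u * ∑ v : S₀, wt M v * cs u v * (c (some (some v)) - c (some (some u))) := by
      rw [Finset.mul_sum]
      refine Finset.sum_congr rfl fun v _ => ?_
      show wt M u * wt M v * cs u v * (c (some (some v)) - c (some (some u))) = _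
      ring
    have e2 : ∑ l, Bm j0 M S₀ (fun k => lb S₀ (p k)) (fun k => nq (p k))
        (some (some u)) l * (d l - c (some (some u))) =
          wt M u * ∑ l, cs u (p l) * (d l - c (some (some u))) := by
      rw [Finset.mul_sum]
      refine Finset.sum_congr rfl fun l _ => ?_
      show wt M u * cs u (p l) * (d l - c (some (some u))) = _
      ring
    have e3 : Am y M S₀ (some (some u)) none = -(wt M u * nq u) := rfl
    have e4 : Am y M S₀ (some (some u)) (some none) = wt M u * nq u := rfl
    rw [e1, e2, e3, e4]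
    ring
  have hrowo : ∀ (c : Option (Option S₀) → ZMod 3) (d : ι → ZMod 3),
      (∑ v, Am y M S₀ (some none) v * (c v - c (some none)) +
        ∑ l, Bm j0 M S₀ (fun k => lb S₀ (p k)) (fun k => nq (p k))
          (some none) l * (d l - c (some none))) =
      ∑ v : S₀, wt M v * nq v * c (some (some v)) + ∑ l, nq (p l) * d l +
        y * (c (some none) - c none) := by
    intro c d
    rw [Fintype.sum_option, Fintype.sum_option]
    have e1 : Am y M S₀ (some none) (some none) = 0 := rfl
    have e3 : Am y M S₀ (some none) none = -y := rfl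
    have e2 : ∑ v : S₀, Am y M S₀ (some none) (some (some v)) *
        (c (some (some v)) - c (some none)) =
        ∑ v : S₀, wt M v * nq v * c (some (some v)) -
          (∑ v : S₀, wt M v * nq v) * c (some none) := by
      rw [Finset.sum_mul, ← Finset.sum_sub_distrib]
      refine Finset.sum_congr rfl fun v _ => ?_
      show wt M v * nq v * (c (some (some v)) - c (some none)) = _
      ring
    have e4 : ∑ l, Bm j0 M S₀ (fun k => lb S₀ (p k)) (fun k => nq (p k))
        (some none) l * (d l - c (some none)) =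
        ∑ l, nq (p l) * d l - (∑ l, nq (p l)) * c (some none) := by
      rw [Finset.sum_mul, ← Finset.sum_sub_distrib]
      refine Finset.sum_congr rfl fun l _ => ?_
      show nq (p l) * (d l - c (some none)) = _
      ring
    rw [e1, e2, e3, e4]
    linear_combination (-c (some none)) * hN
  have hrown : ∀ (c : Option (Option S₀) → ZMod 3) (d : ι → ZMod 3),
      (∑ v, Am y M S₀ none v * (c v - c none) +
        ∑ l, Bm j0 M S₀ (fun k => lb S₀ (p k)) (fun k => nq (p k))
          none l * (d l - c none)) =
      -(∑ v : S₀, wt M v * nq v * c (some (some v)) + ∑ l, nq (p l) * d l +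
        y * (c (some none) - c none)) + (d j0 - c none) := by
    intro c d
    rw [Fintype.sum_option, Fintype.sum_option]
    have e1 : Am y M S₀ none none = 0 := rfl
    have e3 : Am y M S₀ none (some none) = -y := rfl
    have e2 : ∑ v : S₀, Am y M S₀ none (some (some v)) * (c (some (some v)) - c none) =
        -(∑ v : S₀, wt M v * nq v * c (some (some v))) +
          (∑ v : S₀, wt M v * nq v) * c none := by
      rw [Finset.sum_mul, ← Finset.sum_neg_distrib, ← Finset.sum_add_distrib]
      refine Finset.sum_congr rfl fun v _ => ?_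
      show -(wt M v * nq v) * (c (some (some v)) - c none) = _
      ring
    have e4 : ∑ l, Bm j0 M S₀ (fun k => lb S₀ (p k)) (fun k => nq (p k))
        none l * (d l - c none) =
        -(∑ l, nq (p l) * d l) + (∑ l, nq (p l)) * c none + (d j0 - c none) := by
      have e5 : (d j0 - c none) = ∑ l, sg j0 l * (d l - c none) := by
        rw [Finset.sum_eq_single j0]
        · rw [sg_self, one_mul]
        · intro b _ hb
          rw [sg_ne hb, zero_mul]
        · intro h
          exact absurd (Finset.mem_univ j0) h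
      rw [e5, Finset.sum_mul, ← Finset.sum_neg_distrib, ← Finset.sum_add_distrib,
        ← Finset.sum_add_distrib]
      refine Finset.sum_congr rfl fun l _ => ?_
      show (-nq (p l) + sg j0 l) * (d l - c none) = _
      ring
    rw [e1, e2, e3, e4]
    linear_combination c none * hN
  have hrowk : ∀ (c : Option (Option S₀) → ZMod 3) (d : ι → ZMod 3) (k : ι),
      (∑ u, Bm j0 M S₀ (fun k => lb S₀ (p k)) (fun k => nq (p k)) u k *
          (c u - d k) +
        ∑ l, Pool.Agent.Y703.XK.ext (fun e : prs ι => cs (p e.1.1) (p e.1.2)) k l *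
          (d l - d k)) =
      ∑ u : S₀, wt M u * cs (p k) u * (c (some (some u)) - d k) +
        ∑ l, cs (p k) (p l) * (d l - d k) + (c (some none) - c none) * nq (p k) +
        sg j0 k * (c none - d k) := by
    intro c d k
    rw [Fintype.sum_option, Fintype.sum_option, ext_sum hpr k d]
    have e1 : Bm j0 M S₀ (fun k => lb S₀ (p k)) (fun k => nq (p k)) none k =
      -nq (p k) + sg j0 k := rfl
    have e3 : Bm j0 M S₀ (fun k => lb S₀ (p k)) (fun k => nq (p k))
      (some none) k = nq (p k) := rfl
    have e2 : ∑ u : S₀, Bm j0 M S₀ (fun k => lb S₀ (p k)) (fun k => nq (p k))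
        (some (some u)) k * (c (some (some u)) - d k) =
          ∑ u : S₀, wt M u * cs (p k) u * (c (some (some u)) - d k) := by
      refine Finset.sum_congr rfl fun u _ => ?_
      show wt M u * cs u (p k) * (c (some (some u)) - d k) = _
      rw [cs_symm (hpr k) (hS₀ u u.2)]
    rw [e1, e2, e3]
    ring
  have hse : ∀ f : Ei → ZMod 3, ∑ x ∈ S₀ ∪ univ.image p, f x =
      ∑ u : S₀, f u + ∑ l, f (p l) := sum_un hp hd
  have hYS : ∑ ρ ∈ S₀ ∪ univ.image p, wt M ρ * yq ρ = y := by
    rw [hse, hy']
    simp only [hw, one_mul]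
  unfold GdM GdA
  constructor
  · intro h c d h1 h2
    have ho := h1 (some none)
    rw [hrowo] at ho
    have hn := h1 none
    rw [hrown, ho, neg_zero, zero_add] at hn
    have hcd : c none = d j0 := (sub_eq_zero.1 hn).symm
    obtain ⟨c', hc'⟩ : ∃ c' : Ei → ZMod 3, ∀ n, c' n = if h : n ∈ S₀ then
      c (some (some ⟨n, h⟩))
      else if h : ∃ l, p l = n then d h.choose else 0 := ⟨_, fun n => rfl⟩
    have e1 : ∀ u : S₀, c' u = c (some (some u)) := by
      intro u
      rw [hc', dif_pos u.2]
    have e2 : ∀ l, c' (p l) = d l := by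
      intro l
      have hex : ∃ l', p l' = p l := ⟨l, rfl⟩
      rw [hc', dif_neg (hd l), dif_pos hex]
      exact congrArg (fun l => d l) (hp hex.choose_spec)
    obtain ⟨h3, h3a⟩ := h c' (c (some none) - c none) (by
      intro x hx
      rw [sum_un hp hd]
      simp only [hw, one_mul, e1, e2]
      rw [Finset.mem_union, Finset.mem_image] at hx
      rcases hx with hx | ⟨k, -, rfl⟩
      · have h4 := h1 (some (some ⟨x, hx⟩))
        rw [hrowu] at h4
        have h5 := (mul_eq_zero.1 h4).resolve_left (wt_ne M _)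
        have h6 : c' x = c (some (some ⟨x, hx⟩)) := e1 ⟨x, hx⟩
        rw [h6]
        exact h5
      · have h4 := h2 k
        rw [hrowk] at h4
        have h7 : sg j0 k * (c none - d k) = 0 := by
          by_cases hk : k = j0
          · rw [hk, hcd, sub_self, mul_zero]
          · rw [sg_ne hk, zero_mul]
        rw [h7, add_zero] at h4
        rw [e2 k]
        exact h4) (by
      rw [hYS, hse]
      simp only [hw, one_mul, e1, e2]
      rw [← ho, mul_comm y]
      congr 2
      · exact Finset.sum_congr rfl fun u _ => by ring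
      · exact Finset.sum_congr rfl fun l _ => by ring)
    have hmem : ∀ l, p l ∈ S₀ ∪ univ.image p := fun l =>
      Finset.mem_union_right _ (Finset.mem_image_of_mem _ (Finset.mem_univ _))
    refine ⟨c none, fun u => ?_, fun l => ?_⟩
    · cases u with
      | none => rfl
      | some u =>
        cases u with
        | none => exact sub_eq_zero.1 h3a
        | some u =>
          have h4 := h3 u (Finset.mem_union_left _ u.2) (p j0) (hmem j0)
          rw [e1, e2] at h4
          rw [h4, hcd]
    · have h4 := h3 (p l) (hmem l) (p j0) (hmem j0)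
      rw [e2, e2] at h4
      rw [h4, hcd]
  · intro h v a hv ha
    rw [hYS, hse] at ha
    simp only [hw, one_mul] at ha
    obtain ⟨c, hc0, hca, hc1⟩ : ∃ c : Option (Option S₀) → ZMod 3, c none = v (p j0) ∧
        c (some none) = a + v (p j0) ∧ ∀ u : S₀, c (some (some u)) = v u :=
      ⟨fun o => o.elim (v (p j0)) fun o => o.elim (a + v (p j0)) fun u => v u, rfl, rfl,
        fun u => rfl⟩
    have hlast : ∑ v_1 : S₀, wt M v_1 * nq v_1 * v v_1 + ∑ l, nq (p l) * v (p l) + y * a = 0 := by
      rw [← ha, mul_comm y]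
      congr 2
      · exact Finset.sum_congr rfl fun u _ => by ring
      · exact Finset.sum_congr rfl fun l _ => by ring
    obtain ⟨t, ht1, ht2⟩ := h c (fun l => v (p l)) (by
      intro u
      cases u with
      | none =>
        rw [hrown]
        simp only [hc0, hc1, hca, add_sub_cancel_right]
        rw [hlast, sub_self, neg_zero, zero_add]
      | some u =>
        cases u with
        | none =>
          rw [hrowo]
          simp only [hc0, hc1, hca, add_sub_cancel_right]
          exact hlast
        | some u =>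
          rw [hrowu]
          simp only [hc0, hc1, hca, add_sub_cancel_right]
          have h2 := hv u (Finset.mem_union_left _ u.2)
          rw [sum_un hp hd] at h2
          simp only [hw, one_mul] at h2
          rw [h2, mul_zero]) (by
      intro k
      refine (hrowk c (fun l => v (p l)) k).trans ?_
      simp only [hc0, hc1, hca, add_sub_cancel_right]
      have h2 := hv (p k) (Finset.mem_union_right _ (Finset.mem_image_of_mem _ (Finset.mem_univ _)))
      rw [sum_un hp hd] at h2
      simp only [hw, one_mul] at h2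
      have h7 : sg j0 k * (v (p j0) - v (p k)) = 0 := by
        by_cases hk : k = j0
        · rw [hk, sub_self, mul_zero]
        · rw [sg_ne hk, zero_mul]
      rw [h2, h7, add_zero])
    have hall : ∀ x ∈ S₀ ∪ univ.image p, v x = t := by
      intro x hx
      rw [Finset.mem_union, Finset.mem_image] at hx
      rcases hx with hx | ⟨k, -, rfl⟩
      · have := ht1 (some (some ⟨x, hx⟩))
        rw [hc1] at this
        exact this
      · exact ht2 k
    refine ⟨fun x hx x' hx' => by rw [hall x hx, hall x' hx'], ?_⟩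
    have h8 := ht1 (some none)
    have h9 := ht1 none
    rw [hca, ← h9, hc0] at h8
    exact add_eq_right.1 h8

end one

end Box

open Box in
/-- **The count in a box.** -/
theorem box (hEQ : S_EQ) (hLA : S_LA) : S_BOXM := by
  intro ι _ _ C X κ M S₀ hM hκ hCX hHB hS₀ hC hdis hnq hcard
  obtain ⟨cc, hcc⟩ : ∃ cc : ℝ, cc = 3 * (3 ^ (S₀.card + 2) / 3 ^ Fintype.card ι) := ⟨_, rfl⟩
  obtain ⟨R, hR⟩ : ∃ R : ℝ, R = 3 ^ (prs ι).card * (κ * ∏ j, (X j : ℝ)) := ⟨_, rfl⟩
  have hcc0 : 0 ≤ cc := by rw [hcc]; positivity
  have hR0 : 0 ≤ R := by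
    rw [hR]
    exact mul_nonneg (by positivity)
      (mul_nonneg hκ (Finset.prod_nonneg fun j _ => by positivity))
  -- the labels at `ω` and `9`
  obtain ⟨γ, hγ⟩ : ∃ γ : ι → ZMod 3, ∀ k, ∀ π ∈ C k, nq π = γ k :=
    ⟨fun k => if h : (C k).Nonempty then nq h.choose else 0, fun k π hπ => by
      have h : (C k).Nonempty := ⟨π, hπ⟩
      show nq π = if h : (C k).Nonempty then nq h.choose else 0
      rw [dif_pos h]
      exact (hnq k π hπ _ h.choose_spec).1⟩
  obtain ⟨δ, hδ⟩ : ∃ δ : ι → ZMod 3, ∀ k, ∀ π ∈ C k, yq π = δ k :=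
    ⟨fun k => if h : (C k).Nonempty then yq h.choose else 0, fun k π hπ => by
      have h : (C k).Nonempty := ⟨π, hπ⟩
      show yq π = if h : (C k).Nonempty then yq h.choose else 0
      rw [dif_pos h]
      exact (hnq k π hπ _ h.choose_spec).2⟩
  have hγp : ∀ p ∈ Fintype.piFinset C, (fun k => nq (p k)) = γ := by
    intro p hp
    rw [Fintype.mem_piFinset] at hp
    exact funext fun k => hγ k _ (hp k)
  have hδp : ∀ p ∈ Fintype.piFinset C, (fun k => yq (p k)) = δ := by
    intro p hp
    rw [Fintype.mem_piFinset] at hp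
    exact funext fun k => hδ k _ (hp k)
  -- facts on tuples
  have hinj : ∀ p ∈ Fintype.piFinset C, Function.Injective p := by
    intro p hp i j hij
    rw [Fintype.mem_piFinset] at hp
    by_contra hne
    have h1 := Finset.disjoint_left.1 (hdis i j hne) (hp i)
    rw [hij] at h1
    exact h1 (hp j)
  have hd : ∀ p ∈ Fintype.piFinset C, ∀ i, p i ∉ S₀ := by
    intro p hp i
    rw [Fintype.mem_piFinset] at hp
    exact (hC i _ (hp i)).2
  have hpr : ∀ p ∈ Fintype.piFinset C, ∀ i, Pq (p i) := by
    intro p hp i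
    rw [Fintype.mem_piFinset] at hp
    exact (hC i _ (hp i)).1
  -- the norm on the box
  have hNt : ∀ p ∈ Fintype.piFinset C, (NtS M (S₀ ∪ univ.image p) ↔
      ∑ u : S₀, wt M u * nq u + ∑ l, γ l = 0) := by
    intro p hp
    have hw : ∀ k, wt M (p k) = 1 := fun k => wt_one fun h => hd p hp k (hM h)
    unfold NtS
    rw [sum_un (hinj p hp) (hd p hp)]
    simp only [hw, one_mul]
    rw [show (∑ l, nq (p l)) = ∑ l, γ l from
      Finset.sum_congr rfl fun l _ => congrFun (hγp p hp) l]
  by_cases hneu : ∑ u : S₀, wt M u * nq u + ∑ l, γ l = 0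
  swap
  · have e1 : ((Fintype.piFinset C).filter fun p => NdN S₀ (univ.image p) ∧
        NtS M (S₀ ∪ univ.image p) ∧ GdM M (S₀ ∪ univ.image p)) = ∅ := by
      refine Finset.filter_eq_empty_iff.2 fun p hp h => hneu ((hNt p hp).1 h.2.1)
    have e2 : ((Fintype.piFinset C).filter fun p => NdN S₀ (univ.image p) ∧
        NtS M (S₀ ∪ univ.image p)) = ∅ := by
      refine Finset.filter_eq_empty_iff.2 fun p hp h => hneu ((hNt p hp).1 h.2)
    rw [e1, e2, ← hcc]
    simp only [Finset.card_empty, Nat.cast_zero, mul_zero, sub_zero, abs_zero]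
    have h5 : (0 : ℝ) ≤ 3 ^ (S₀.card * Fintype.card ι + (prs ι).card) *
        (κ * ∏ j, (X j : ℝ)) := by
      exact mul_nonneg (by positivity)
        (mul_nonneg hκ (Finset.prod_nonneg fun j _ => by positivity))
    have h6 : (0 : ℝ) ≤ cc *
      (((Fintype.piFinset C).filter fun p => NdN S₀ (univ.image p)).card : ℝ) :=
      mul_nonneg hcc0 (by positivity)
    linarith
  have e1 : ((Fintype.piFinset C).filter fun p => NdN S₀ (univ.image p) ∧
      NtS M (S₀ ∪ univ.image p) ∧ GdM M (S₀ ∪ univ.image p)) =
      ((Fintype.piFinset C).filter fun p => NdN S₀ (univ.image p) ∧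
        GdM M (S₀ ∪ univ.image p)) := by
    refine Finset.filter_congr fun p hp => ?_
    constructor
    · rintro ⟨h1, -, h3⟩
      exact ⟨h1, h3⟩
    · rintro ⟨h1, h3⟩
      exact ⟨h1, (hNt p hp).2 hneu, h3⟩
  have e2 : ((Fintype.piFinset C).filter fun p => NdN S₀ (univ.image p) ∧
      NtS M (S₀ ∪ univ.image p)) =
      ((Fintype.piFinset C).filter fun p => NdN S₀ (univ.image p)) := by
    refine Finset.filter_congr fun p hp => ?_
    constructor
    · rintro ⟨h1, -⟩
      exact h1
    · intro h1
      exact ⟨h1, (hNt p hp).2 hneu⟩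
  rw [e1, e2]
  -- the part with given labels
  have h1 : ∀ β : ι → S₀ → ZMod 3, LNB S₀ β γ δ →
      |(((Fintype.piFinset C).filter fun p => (fun i => lb S₀ (p i)) = β ∧
          GdM M (S₀ ∪ univ.image p)).card : ℝ) -
        c9 * (((Fintype.piFinset C).filter fun p => (fun i => lb S₀ (p i)) = β).card : ℝ)| ≤
      cc * (((Fintype.piFinset C).filter fun p => (fun i => lb S₀ (p i)) = β).card : ℝ) + R := by
    intro β hβ
    obtain ⟨j0, hj0⟩ := ex_j0 β γ δ hβ hcard
    obtain ⟨C', hC'⟩ : ∃ C' : ι → Finset Ei, C' = fun i => (C i).filter fun q => lb S₀ q = β i :=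
      ⟨_, rfl⟩
    have hpi : (Fintype.piFinset C).filter (fun p => (fun i => lb S₀ (p i)) = β) =
        Fintype.piFinset C' := by
      ext p
      simp only [Finset.mem_filter, Fintype.mem_piFinset, hC']
      constructor
      · rintro ⟨h2, h3⟩ i
        exact ⟨h2 i, congrFun h3 i⟩
      · intro h2
        exact ⟨fun i => (h2 i).1, funext fun i => (h2 i).2⟩
    obtain ⟨y, hy⟩ : ∃ y : ZMod 3, y = yy M S₀ δ := ⟨_, rfl⟩
    have h2 := hLA (Option (Option S₀)) ι (Am y M S₀) (Bm j0 M S₀ β γ)
      (by rw [Fintype.card_option, Fintype.card_option, Fintype.card_coe]; exact hcard)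
      (fun u v => by
        rcases u with _ | _ | u <;> rcases v with _ | _ | v
        · rfl
        · rfl
        · rfl
        · rfl
        · rfl
        · rfl
        · rfl
        · rfl
        · show wt M u * wt M v * cs u v = wt M v * wt M u * cs v u
          rw [cs_symm (hS₀ u u.2) (hS₀ v v.2), mul_comm (wt M u) (wt M v)])
      (fun w hw => by
        have hsum : ∀ k, ∑ u, w u * Bm j0 M S₀ β γ u k =
            (∑ u : S₀, w (some (some u)) * wt M u * β k u + (w (some none) - w none) * γ k) +
              w none * sg j0 k := by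
          intro k
          rw [Fintype.sum_option, Fintype.sum_option]
          have e1 : ∑ u : S₀, w (some (some u)) * Bm j0 M S₀ β γ (some (some u)) k =
              ∑ u : S₀, w (some (some u)) * wt M u * β k u := by
            refine Finset.sum_congr rfl fun u _ => ?_
            show w (some (some u)) * (wt M u * β k u) = _
            ring
          have e2 : Bm j0 M S₀ β γ none k = -γ k + sg j0 k := rfl
          have e3 : Bm j0 M S₀ β γ (some none) k = γ k := rfl
          rw [e1, e2, e3]
          ring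
        by_cases h0 : w none = 0
        · obtain ⟨k, -, hk⟩ := hj0 (fun u => w (some (some u)) * wt M u)
            (w (some none) - w none) (by
            by_cases h00 : w (some none) = 0
            · obtain ⟨u, hu⟩ := hw
              rcases u with _ | _ | u
              · exact absurd h0 hu
              · exact absurd h00 hu
              · exact Or.inl ⟨u, mul_ne_zero hu (wt_ne M u)⟩
            · refine Or.inr ?_
              rw [h0, sub_zero]
              exact h00)
          refine ⟨k, ?_⟩
          rw [hsum k, h0, zero_mul, add_zero]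
          rw [h0] at hk
          exact hk
        · by_cases h00 : (∃ u : S₀, w (some (some u)) * wt M u ≠ 0) ∨ w (some none) - w none ≠ 0
          · obtain ⟨k, hkj, hk⟩ := hj0 (fun u => w (some (some u)) * wt M u)
              (w (some none) - w none) h00
            refine ⟨k, ?_⟩
            rw [hsum k, sg_ne hkj, mul_zero, add_zero]
            exact hk
          · push Not at h00
            refine ⟨j0, ?_⟩
            rw [hsum j0, sg_self, h00.2, zero_mul, add_zero, mul_one,
              Finset.sum_eq_zero (fun u _ => by rw [h00.1 u, zero_mul]), zero_add]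
            exact h0)
    obtain ⟨Q, hQ⟩ : ∃ Q : (prs ι → ZMod 3) → Prop, Q = fun α =>
        GdA (Am y M S₀) (Bm j0 M S₀ β γ) (Pool.Agent.Y703.XK.ext α) := ⟨_, rfl⟩
    have h3 := hEQ ι C' X κ hκ
      (fun i => (Finset.card_le_card (by rw [hC']; exact Finset.filter_subset _ _)).trans (hCX i))
      (by rw [hC']; exact HB_sub hHB fun i q => lb S₀ q = β i) Q
    have h4 : ((Fintype.piFinset C).filter fun p => (fun i => lb S₀ (p i)) = β ∧
        GdM M (S₀ ∪ univ.image p)) = ((Fintype.piFinset C').filter fun p =>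
          Q fun e => cs (p e.1.1) (p e.1.2)) := by
      rw [← hpi, Finset.filter_filter]
      refine Finset.filter_congr fun p hp => ?_
      refine and_congr_right fun hl => ?_
      rw [gdm_iff j0 hM (hinj p hp) (hpr p hp) hS₀ (hd p hp) (by
        rw [← hneu]
        exact congrArg _ (Finset.sum_congr rfl fun l _ => congrFun (hγp p hp) l)), hγp p hp,
        hδp p hp, ← hy]
      subst hl
      rw [hQ]
    have h5 : (((Fintype.piFinset C').card : ℕ) : ℝ) = ∏ j, ((C' j).card : ℝ) := by
      rw [Fintype.card_piFinset]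
      push_cast
      rfl
    rw [h4, hpi, h5]
    rw [Fintype.card_option, Fintype.card_option, Fintype.card_coe] at h2
    have hcc' : (3 : ℝ) * (3 ^ (S₀.card + 1 + 1) / 3 ^ Fintype.card ι) = cc := by rw [hcc]
    rw [hcc'] at h2
    rw [← hR] at h3
    obtain ⟨n, hn⟩ : ∃ n : ℝ, n = (((Fintype.piFinset C').filter fun p =>
          Q fun e => cs (p e.1.1) (p e.1.2)).card : ℝ) := ⟨_, rfl⟩
    obtain ⟨q, hq⟩ : ∃ q : ℝ, q = ((univ.filter Q).card : ℝ) / 3 ^ (prs ι).card := ⟨_, rfl⟩
    obtain ⟨P, hP⟩ : ∃ P : ℝ, P = ∏ j, ((C' j).card : ℝ) := ⟨_, rfl⟩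
    have hP0 : 0 ≤ P := by
      rw [hP]
      exact Finset.prod_nonneg fun j _ => by positivity
    have h2' : |q - c9| ≤ cc := by
      rw [hq, hQ]
      exact h2
    rw [← hn, ← hq, ← hP] at h3
    rw [← hn, ← hP]
    have h6 : |n - c9 * P| ≤ |n - q * P| + |q - c9| * P := by
      have h7 : n - c9 * P = (n - q * P) + (q - c9) * P := by ring
      have h8 : |(q - c9) * P| = |q - c9| * P := by rw [abs_mul, abs_of_nonneg hP0]
      rw [h7, ← h8]
      exact abs_add_le _ _
    have h7 : |q - c9| * P ≤ cc * P := mul_le_mul_of_nonneg_right h2' hP0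
    linarith
  -- sum over the labels
  obtain ⟨LL, hLL⟩ : ∃ LL : Finset (ι → S₀ → ZMod 3), LL = univ.filter (fun β => LNB S₀ β γ δ) :=
    ⟨_, rfl⟩
  have hfib : ∀ T : (ι → Ei) → Prop,
      (((Fintype.piFinset C).filter fun p => NdN S₀ (univ.image p) ∧ T p).card : ℝ) =
      ∑ β ∈ LL, (((Fintype.piFinset C).filter fun p =>
        (fun i => lb S₀ (p i)) = β ∧ T p).card : ℝ) := by
    intro T
    have hnd : ∀ p ∈ Fintype.piFinset C, (NdN S₀ (univ.image p) ↔
        LNB S₀ (fun i => lb S₀ (p i)) γ δ) := by
      intro p hp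
      rw [nd_iff, hγp p hp, hδp p hp]
    rw [Finset.card_eq_sum_card_fiberwise (f := fun (p : ι → Ei) (i : ι) => lb S₀ (p i))
      (t := LL) (by
        intro p hp
        rw [Finset.mem_coe, Finset.mem_filter] at hp
        rw [Finset.mem_coe, hLL, Finset.mem_filter]
        exact ⟨Finset.mem_univ _, (hnd p hp.1).1 hp.2.1⟩)]
    push_cast
    refine Finset.sum_congr rfl fun β hβ => ?_
    rw [hLL, Finset.mem_filter] at hβ
    congr 2
    ext p
    simp only [Finset.mem_filter]
    constructor
    · rintro ⟨⟨h3, h4, h4'⟩, h5⟩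
      exact ⟨h3, h5, h4'⟩
    · rintro ⟨h3, h4, h5⟩
      refine ⟨⟨h3, ?_, h5⟩, h4⟩
      rw [hnd p h3, h4]
      exact hβ.2
  have hf1 := hfib fun p => GdM M (S₀ ∪ univ.image p)
  have hf2 := hfib fun _ => True
  simp only [and_true] at hf2
  rw [← hcc, hf1, hf2, Finset.mul_sum, ← Finset.sum_sub_distrib]
  refine (Finset.abs_sum_le_sum_abs _ _).trans ?_
  refine (Finset.sum_le_sum fun β hβ => h1 β (by
    rw [hLL] at hβ
    exact (Finset.mem_filter.1 hβ).2)).trans ?_
  rw [Finset.sum_add_distrib, ← Finset.mul_sum, Finset.sum_const, nsmul_eq_mul]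
  have h5 : ((LL.card : ℕ) : ℝ) ≤ 3 ^ (S₀.card * Fintype.card ι) := by
    have h6 : LL.card ≤ Fintype.card (ι → S₀ → ZMod 3) :=
      Finset.card_le_univ _
    rw [Fintype.card_fun, Fintype.card_fun, ZMod.card, Fintype.card_coe, ← pow_mul] at h6
    exact_mod_cast h6
  have h6 := mul_le_mul_of_nonneg_right h5 hR0
  rw [pow_add, mul_assoc, ← hR]
  linarith

end Pool.Agent.D0H69.L0D
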