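import Pool.Agent.D0H69.L0D.Stm
import Pool.Agent.D0H10.L9D.Tot
import Pool.Agent.N883.FF.Den3

/-!
# Project L0, module DENM: the sum over the sets `M` of the primes with exponent `2`, elements

Adapted from the file `D0H10/L9D/Tot.lean` of helper10.
-/

set_option autoImplicit false

open scoped Classical
open Finset Filter

namespace Pool.Agent.D0H69.L0D

namespace Tot

open Pool.Agent.Y692.QS (Ei w nr toC)
open Pool.Agent.Y715.T.Rec (cs)
open Pool.Agent.Y715.T.RecG (Pq)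
open Pool.Agent.Y715.T.Gi (CF)
open Pool.Agent.Y699.E
open Pool.Agent.Y703.CT (Dt pD)
open Pool.Agent.Y703.XK (c9 S_C9 SS)
open Pool.Agent.Y433.XK (pN pN_pos)
open Pool.Agent.R419.KF (wt SG el mem_SG sub_QB prod_ppos ff ff_nonneg ff_sum ff_summable el_ne
  el_prm nrm_el el_inj cf_el ex_pair sg_empty wt_ne SW_empty mem_SW)
open Pool.Agent.N883.FF (ClU SU ClP nq)
open Pool.Agent.N883.FF.Tot (mem_SU su_le card_eq card_cls)

/-! ### the norm -/

theorem nq_prod {S : Finset Ei} (hS : ∀ q ∈ S, Pq q) :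
    nq (∏ π ∈ S, π) = ∑ π ∈ S, nq π := by
  induction S using Finset.induction_on with
  | empty =>
    rw [prod_empty, sum_empty, Pool.Agent.N883.FF.Den3.nq_zero prm_one, Pool.Agent.Y692.QS.nr_one]
    exact ⟨0, by norm_num⟩
  | insert a S ha ih =>
    have h1 : ∀ q ∈ S, Pq q := fun q hq => hS q (mem_insert_of_mem hq)
    rw [prod_insert ha, sum_insert ha, Pool.Agent.N883.FF.Den3.nq_mul
      (hS a (mem_insert_self _ _)).three (PS_prod h1).1.prm, ih h1]

theorem nt_iff {M S : Finset Ei} (h : ClU M S) : (9 : ℤ) ∣ nr (el M S) - 1 ↔ NtS M S := by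
  obtain ⟨hS, hM⟩ := h
  have hM' : ∀ q ∈ M, Pq q := fun q hq => hS q (hM hq)
  rw [← Pool.Agent.N883.FF.Den3.nq_zero (el_prm hS hM)]
  have h1 : nq (el M S) = ∑ π ∈ S, wt M π * nq π := by
    unfold el
    rw [Pool.Agent.N883.FF.Den3.nq_mul (PS_prod hS).1.prm (PS_prod hM').1.prm, nq_prod hS,
      nq_prod hM']
    have h2 : ∑ π ∈ M, nq π = ∑ π ∈ S, if π ∈ M then nq π else 0 := by
      rw [sum_ite_mem, inter_eq_right.2 hM]
    rw [h2, ← sum_add_distrib]
    refine sum_congr rfl fun q _ => ?_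
    unfold wt
    split_ifs
    · ring
    · ring
  rw [h1]
  rfl

/-- the number of the pairs -/
noncomputable def N0 (X : ℕ) : ℕ :=
  ∑ M ∈ SG X, ((SU M (X / pN M)).filter (NtS M)).card

/-- the number of the good pairs -/
noncomputable def Gt (X : ℕ) : ℕ :=
  ∑ M ∈ SG X, ((SU M (X / pN M)).filter fun S => NtS M S ∧ GdM M S).card

theorem card_N0 (X : ℕ) : {D : Ei | nr D ≤ X ∧ ClP D ∧ (9 : ℤ) ∣ nr D - 1}.ncard = N0 X :=
  card_eq X NtS (fun D => (9 : ℤ) ∣ nr D - 1) fun _ _ h => nt_iff h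

theorem low_N0 : ∃ (c : ℝ) (X₀ : ℕ), 0 < c ∧ ∀ X : ℕ, X₀ ≤ X → c * X ≤ (N0 X : ℝ) := by
  obtain ⟨⟨c, hc, X₀, h1⟩, h2⟩ := Pool.Agent.N883.FF.den3
  have h3 : ∀ᶠ X : ℕ in atTop, (1 / 4 : ℝ) <
      ({D : Ei | nr D ≤ X ∧ ClP D ∧ (9 : ℤ) ∣ nr D - 1}.ncard : ℝ) /
    ({D : Ei | nr D ≤ X ∧ ClP D}.ncard : ℝ) := h2.eventually (lt_mem_nhds (by norm_num))
  obtain ⟨X₁, hX₁⟩ := eventually_atTop.1 h3
  refine ⟨c / 4, max (max X₀ X₁) 1, by positivity, fun X hX => ?_⟩
  have hX0 := h1 X ((le_max_left _ _).trans ((le_max_left _ _).trans hX))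
  have hX1 := hX₁ X ((le_max_right _ _).trans ((le_max_left _ _).trans hX))
  have hXp : (0 : ℝ) < X := by exact_mod_cast (le_max_right _ _).trans hX
  have hN : (0 : ℝ) < ({D : Ei | nr D ≤ X ∧ ClP D}.ncard : ℝ) :=
    lt_of_lt_of_le (by positivity) hX0
  rw [card_N0, lt_div_iff₀ hN] at hX1
  linarith

theorem abs_le_card (hc9 : S_C9) (M : Finset Ei) (Y : ℕ) :
    |(((SU M Y).filter fun S => NtS M S ∧ GdM M S).card : ℝ) -
      c9 * (((SU M Y).filter (NtS M)).card : ℝ)| ≤ ((SU M Y).card : ℝ) := by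
  have h2 : (((SU M Y).filter fun S => NtS M S ∧ GdM M S).card : ℝ) ≤ ((SU M Y).card : ℝ) := by
    exact_mod_cast card_filter_le _ _
  have h2' : (((SU M Y).filter (NtS M)).card : ℝ) ≤ ((SU M Y).card : ℝ) := by
    exact_mod_cast card_filter_le _ _
  have h3 : (0 : ℝ) ≤ (((SU M Y).filter (NtS M)).card : ℝ) := Nat.cast_nonneg _
  exact Pool.Agent.Y703.CX.abs_sub_le_of (Nat.cast_nonneg _) h2 (mul_nonneg hc9.2.1.le h3)
    ((mul_le_of_le_one_left h3 hc9.2.2.1.le).trans h2')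

/-- the error -/
theorem err (hc9 : S_C9) (hA : AsyM) (δ : ℝ) (hδ : 0 < δ) :
    ∀ᶠ X : ℕ in atTop, |(Gt X : ℝ) - c9 * (N0 X : ℝ)| ≤ δ * X := by
  obtain ⟨T₀, hT₀⟩ := (summable_iff_vanishing_norm.1 ff_summable) (δ / 32) (by positivity)
  set ε' : ℝ := δ / (2 * ((T₀.card : ℝ) + 1)) with hε'
  have hε'0 : 0 < ε' := by positivity
  obtain ⟨F, hF⟩ : ∃ F : Finset Ei → ℕ → ℝ, ∀ M Y, F M Y =
      (((SU M Y).filter fun S => NtS M S ∧ GdM M S).card : ℝ) -
        c9 * (((SU M Y).filter (NtS M)).card : ℝ) := ⟨_, fun _ _ => rfl⟩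
  have hev : ∀ᶠ X : ℕ in atTop, ∀ M ∈ T₀.filter (fun M => ∀ q ∈ M, Pq q),
      |F M (X / pN M)| ≤ ε' * X := by
    rw [eventually_all_finset]
    intro M hM
    have hp := pN_pos (mem_filter.1 hM).2
    obtain ⟨X₀, hX₀⟩ := hA M ε' hε'0
    filter_upwards [eventually_ge_atTop (X₀ * pN M)] with X hX
    have h5 : X₀ ≤ X / pN M := (Nat.le_div_iff_mul_le hp).2 hX
    rw [hF]
    refine (hX₀ _ h5).trans ?_
    have h6 : ((X / pN M : ℕ) : ℝ) ≤ X := by exact_mod_cast Nat.div_le_self _ _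
    gcongr
  filter_upwards [hev] with X hX
  have k1 : (Gt X : ℝ) - c9 * (N0 X : ℝ) = ∑ M ∈ SG X, F M (X / pN M) := by
    simp only [hF]
    rw [sum_sub_distrib, ← mul_sum]
    unfold Gt N0
    push_cast
    rfl
  have hX0 : (0 : ℝ) ≤ X := Nat.cast_nonneg _
  rw [k1]
  refine (abs_sum_le_sum_abs _ _).trans ?_
  rw [← sum_filter_add_sum_filter_not (SG X) (fun M => M ∈ T₀)]
  have k2 : ∑ M ∈ (SG X).filter (fun M => M ∈ T₀), |F M (X / pN M)| ≤ δ / 2 * X := by
    have k3 : ∑ M ∈ (SG X).filter (fun M => M ∈ T₀), |F M (X / pN M)| ≤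
        ∑ M ∈ (SG X).filter (fun M => M ∈ T₀), ε' * X := by
      refine sum_le_sum fun M hM => hX M ?_
      rw [mem_filter] at hM ⊢
      exact ⟨hM.2, (mem_SG.1 hM.1).1⟩
    refine k3.trans ?_
    rw [sum_const, nsmul_eq_mul]
    have k4 : ((((SG X).filter fun M => M ∈ T₀).card : ℕ) : ℝ) ≤ (T₀.card : ℝ) + 1 := by
      have : ((SG X).filter fun M => M ∈ T₀).card ≤ T₀.card :=
        card_le_card fun M hM => (mem_filter.1 hM).2
      have h6 : ((((SG X).filter fun M => M ∈ T₀).card : ℕ) : ℝ) ≤ (T₀.card : ℝ) := by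
        exact_mod_cast this
      linarith
    have k5 : (0 : ℝ) < (T₀.card : ℝ) + 1 := by positivity
    calc ((((SG X).filter fun M => M ∈ T₀).card : ℕ) : ℝ) * (ε' * X) ≤
        ((T₀.card : ℝ) + 1) * (ε' * X) := by gcongr
      _ = δ / 2 * X := by
        rw [hε']
        field_simp
  have k3 : ∑ M ∈ (SG X).filter (fun M => ¬ M ∈ T₀), |F M (X / pN M)| ≤ δ / 2 * X := by
    have k4 : ∑ M ∈ (SG X).filter (fun M => ¬ M ∈ T₀), |F M (X / pN M)| ≤
        ∑ M ∈ (SG X).filter (fun M => ¬ M ∈ T₀), 16 * (X * ff M) := by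
      refine sum_le_sum fun M hM => ?_
      rw [hF]
      refine (abs_le_card hc9 M _).trans (su_le ?_ X)
      exact (mem_SG.1 (mem_filter.1 hM).1).1
    refine k4.trans ?_
    rw [← mul_sum, ← mul_sum]
    have k5 := hT₀ ((SG X).filter fun M => ¬ M ∈ T₀) (by
      rw [disjoint_left]
      intro M hM hM'
      exact (mem_filter.1 hM).2 hM')
    have k6 := (le_abs_self _).trans ((Real.norm_eq_abs _).symm.le.trans k5.le)
    calc 16 * ((X : ℝ) * ∑ M ∈ (SG X).filter (fun M => ¬ M ∈ T₀), ff M) ≤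
        16 * ((X : ℝ) * (δ / 32)) := by gcongr
      _ = δ / 2 * X := by ring
  calc _ ≤ δ / 2 * X + δ / 2 * X := add_le_add k2 k3
    _ = δ * X := by ring

/-- the limit, with a bounded change of the numerator -/
theorem lim (hc9 : S_C9) (hA : AsyM) (G : ℕ → ℕ) (hG : ∀ X, G X ≤ Gt X + 1 ∧ Gt X ≤ G X + 1) :
    Tendsto (fun X : ℕ => (G X : ℝ) / (N0 X : ℝ)) atTop (nhds c9) := by
  obtain ⟨c, X₀, hc, hlow⟩ := low_N0
  rw [Metric.tendsto_nhds]
  intro ε hε
  obtain ⟨X₁, hX₁⟩ := exists_nat_gt (4 / (c * ε))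
  filter_upwards [err hc9 hA (c * ε / 2) (by positivity), eventually_ge_atTop (max X₀ 1),
    eventually_ge_atTop X₁] with X hX hX0 hXX
  have hlo := hlow X ((le_max_left _ _).trans hX0)
  have hX1 : (0 : ℝ) < X := by exact_mod_cast (le_max_right _ _).trans hX0
  have hN : (0 : ℝ) < N0 X := lt_of_lt_of_le (by positivity) hlo
  rw [Real.dist_eq]
  have e3 : (G X : ℝ) / (N0 X : ℝ) - c9 = ((G X : ℝ) - c9 * (N0 X : ℝ)) / (N0 X : ℝ) := by
    field_simp
  rw [e3, abs_div, abs_of_pos hN, div_lt_iff₀ hN]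
  have hb : |(G X : ℝ) - c9 * (N0 X : ℝ)| ≤ |(Gt X : ℝ) - c9 * (N0 X : ℝ)| + 1 := by
    have h1 : (G X : ℝ) ≤ (Gt X : ℝ) + 1 := by exact_mod_cast (hG X).1
    have h2 : (Gt X : ℝ) ≤ (G X : ℝ) + 1 := by exact_mod_cast (hG X).2
    have h3 : |(G X : ℝ) - (Gt X : ℝ)| ≤ 1 := by
      rw [abs_le]
      exact ⟨by linarith, by linarith⟩
    have h4 : (G X : ℝ) - c9 * (N0 X : ℝ) = ((G X : ℝ) - (Gt X : ℝ)) +
        ((Gt X : ℝ) - c9 * (N0 X : ℝ)) := by ring
    rw [h4]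
    exact (abs_add_le _ _).trans (by linarith)
  have hbig : (1 : ℝ) ≤ c * ε / 4 * X := by
    have h5 : 4 / (c * ε) < (X : ℝ) := hX₁.trans_le (by exact_mod_cast hXX)
    have hce : 0 < c * ε := by positivity
    rw [div_lt_iff₀ hce] at h5
    linarith
  calc |(G X : ℝ) - c9 * (N0 X : ℝ)| ≤ c * ε / 2 * X + 1 := hb.trans (by linarith)
    _ ≤ c * ε / 2 * X + c * ε / 4 * X := by linarith
    _ = ε * (3 / 4) * (c * X) := by ring
    _ ≤ ε * (3 / 4) * (N0 X : ℝ) := by gcongr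
    _ < ε * (N0 X : ℝ) := by
      apply mul_lt_mul_of_pos_right _ hN
      linarith

end Tot

open Pool.Agent.Y692.QS (Ei nr)
open Pool.Agent.Y715.T.Rec (cs)
open Pool.Agent.Y699.E (eq_of_dvd)
open Pool.Agent.Y703.CT (Dt pD)
open Pool.Agent.Y703.XK (c9)
open Pool.Agent.R419.KF (wt el wt_ne)
open Pool.Agent.N883.FF (ClU ClP)
open Pool.Agent.D0H69.L0 (Ntl KerM)

/-- the factorization of an element of the class -/
theorem datt {M S : Finset Ei} (hMS : ClU M S) (hSn : S.Nonempty) :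
    ∃ (n : ℕ) (π : Fin (n + 1) → Ei) (e : Fin (n + 1) → ZMod 3),
      Dt π e ∧ el M S = pD π e ∧ (NtS M S ↔ Ntl π e) ∧ (GdM M S ↔ KerM π e) := by
  obtain ⟨hS, hM⟩ := hMS
  have hne : S.card ≠ 0 := (card_pos.2 hSn).ne'
  obtain ⟨n, hn⟩ := Nat.exists_eq_succ_of_ne_zero hne
  set eq : S ≃ Fin (n + 1) := S.equivFinOfCardEq hn with heq
  set π : Fin (n + 1) → Ei := fun i => (eq.symm i : Ei) with hπ
  have hmem : ∀ i, π i ∈ S := fun i => (eq.symm i).2
  have hinj : Function.Injective π := fun a b hab => eq.symm.injective (Subtype.ext hab)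
  have himg : Finset.univ.image π = S := by
    ext q
    rw [mem_image]
    constructor
    · rintro ⟨i, -, rfl⟩
      exact hmem i
    · intro hq
      refine ⟨eq ⟨q, hq⟩, mem_univ _, ?_⟩
      simp [hπ]
  have hsum : ∀ (f : Ei → ZMod 3), ∑ q ∈ S, f q = ∑ i, f (π i) := by
    intro f
    rw [← himg, sum_image fun a _ b _ h => hinj h]
  refine ⟨n, π, fun i => wt M (π i), ⟨fun i => hS _ (hmem i), fun i j hij hd => ?_,
    fun i => wt_ne M _⟩, ?_, ?_, ?_⟩
  · exact hij (hinj (eq_of_dvd (hS _ (hmem j)) (hS _ (hmem i)) hd)).symm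
  · unfold pD el
    have h2 : ∏ q ∈ S, q ^ (wt M q).val = ∏ i, π i ^ (wt M (π i)).val := by
      rw [← himg, prod_image fun a _ b _ h => hinj h]
    rw [← h2]
    have h4 : ∏ q ∈ M, q = ∏ q ∈ S, if q ∈ M then q else 1 := by
      rw [prod_ite_mem, inter_eq_right.2 hM]
    rw [h4, ← prod_mul_distrib]
    refine prod_congr rfl fun q _ => ?_
    unfold wt
    split_ifs with hq
    · have : (2 : ZMod 3).val = 2 := by decide
      rw [this, pow_two]
    · have : (1 : ZMod 3).val = 1 := by decide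
      rw [this, pow_one, mul_one]
  · unfold NtS Ntl
    rw [hsum]
  · unfold GdM KerM
    constructor
    · intro hg v a hv ha
      obtain ⟨c', hc'⟩ : ∃ c' : Ei → ZMod 3, ∀ j, c' (π j) = v j :=
        ⟨fun q => if hq : q ∈ S then v (eq ⟨q, hq⟩) else 0, fun j => by simp [hπ]⟩
      have h2 := hg c' a (fun q hq => ?_) (by
        rw [hsum, hsum, ← ha]
        congr 1
        exact sum_congr rfl fun j _ => by rw [hc'])
      · refine ⟨fun i j => ?_, h2.2⟩
        rw [← hc' i, ← hc' j]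
        exact h2.1 _ (hmem i) _ (hmem j)
      · obtain ⟨j, rfl⟩ : ∃ j, π j = q := by
          rw [← himg, mem_image] at hq
          obtain ⟨j, -, hj⟩ := hq
          exact ⟨j, hj⟩
        rw [hsum, hc', ← hv j]
        congr 1
        exact sum_congr rfl fun k _ => by rw [hc']
    · intro hk v a hv ha
      have h1 := hk (fun i => v (π i)) a (fun j => by
        have h3 := hv (π j) (hmem j)
        rw [hsum] at h3
        exact h3) (by
        rw [hsum, hsum] at ha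
        exact ha)
      refine ⟨fun q hq q' hq' => ?_, h1.2⟩
      rw [← himg, mem_image] at hq hq'
      obtain ⟨j, -, rfl⟩ := hq
      obtain ⟨j', -, rfl⟩ := hq'
      exact h1.1 j j'

end Pool.Agent.D0H69.L0D
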