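import Pool.Agent.D0H69.L0D.Stm
import Pool.Agent.D0H10.L9D.Key

/-!
# Project L0, module DENM: the sum over the boxes

Adapted from the file `D0H10/L9D/Key.lean` of helper10.
-/

set_option autoImplicit false

namespace Pool.Agent.D0H69.L0D

open Finset
open Pool.Agent.Y692.QS (Ei w nr toC)
open Pool.Agent.Y715.T.Rec (cs)
open Pool.Agent.Y715.T.RecG (Pq)
open Pool.Agent.Y699.E (ez nrm QB mem_QB pq_nrm_two nrm_prod PS_prod PD SB mem_SB card_SB_le
  hsum_SB lg nrm_cast)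
open Pool.Agent.Y703.CX (jj XX)
open Pool.Agent.Y703.XK (sm la bl prs HB S_BIL c9)
open Pool.Agent.XLK (le_XX fcc card_sub nrm_one_le sm_union sm_disj
  prod_split root_le24 hb_box card_QB_le prs_card lg_le sum_inv)
open Pool.Agent.N883.FF (nq ClU SU RRU)
open Pool.Agent.D0H43.L3 (yq)
open Pool.Agent.N883.FF.Key (mem_SU CdU)
open Pool.Agent.R419.KF (wt SG sub_QB sub_sm)
open Pool.Agent.D0H10.L9D (NdN)
open Pool.Agent.D0H10.L9D.Key (ph ph_div ph_mod ky CC mem_CC ph_inj prod_ph sm_fill la_fill ph_fill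
  ky_fill mem_RRU key_facts key_bij keg_err)
open scoped Classical

namespace Key

/-- the statement for the boxes with the decidability of equality as a variable -/
theorem box_dec (hbx : S_BOXM) (ι : Type) [Fintype ι]
    [inst : DecidableEq ι]
    (lo : LinearOrder ι) (C : ι → Finset Ei) (X : ι → ℕ) (κ : ℝ) (M S₀ : Finset Ei) (hM : M ⊆ S₀)
    (h1 : 0 ≤ κ)
    (h2 : ∀ i, (C i).card ≤ X i) (h3 : HB C X κ) (h4 : ∀ u ∈ S₀, Pq u)
    (h5 : ∀ i, ∀ π ∈ C i, Pq π ∧ π ∉ S₀) (h6 : ∀ i l, i ≠ l → Disjoint (C i) (C l))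
    (h7 : ∀ i, ∀ π ∈ C i, ∀ ρ ∈ C i, nq π = nq ρ ∧ yq π = yq ρ)
    (h8 : S₀.card + 2 < Fintype.card ι) :
    |(((Fintype.piFinset C).filter fun p => NdN S₀ (univ.image p) ∧
        NtS M (S₀ ∪ univ.image p) ∧ GdM M (S₀ ∪ univ.image p)).card : ℝ) -
      c9 * (((Fintype.piFinset C).filter fun p => NdN S₀ (univ.image p) ∧
        NtS M (S₀ ∪ univ.image p)).card : ℝ)| ≤
    3 * (3 ^ (S₀.card + 2) / 3 ^ Fintype.card ι) *
      (((Fintype.piFinset C).filter fun p => NdN S₀ (univ.image p)).card : ℝ) +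
    3 ^ (S₀.card * Fintype.card ι + (prs ι).card) * (κ * ∏ j, (X j : ℝ)) := by
  have h := hbx ι C X κ M S₀ hM h1 h2 h3 h4 h5 h6 h7 h8
  have e : inst = fun a b => lo.toDecidableEq a b := Subsingleton.elim _ _
  subst e
  exact h

theorem per_key (hbx : S_BOXM) {C₁ : ℝ}
    (hb1 : ∀ (P Q : Finset Ei) (A B z : ℕ) (c d : Ei → ℂ) (a : ZMod 3),
      (∀ π ∈ P, Pq π ∧ nrm π ≤ A) → (∀ ρ ∈ Q, Pq ρ ∧ nrm ρ ≤ B) → Disjoint P Q → a ≠ 0 →
      1 ≤ z → z ≤ A → z ≤ B → (∀ π, ‖c π‖ ≤ 1) → (∀ ρ, ‖d ρ‖ ≤ 1) →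
      ‖∑ π ∈ P, ∑ ρ ∈ Q, c π * d ρ * ez (a * cs π ρ)‖ ^ 24 * z ≤ C₁ * ((A : ℝ) * B) ^ 24)
    {M : Finset Ei} {X z H k V : ℕ} {κ : ℝ} (hM : ∀ q ∈ M, nrm q ≤ z) (hH : 1 ≤ H) (hz : 1 ≤ z) (hκ : 0 ≤ κ) (hV : 2 ≤ V)
    (h1 : C₁ ≤ κ ^ 24 * z) {S₀ : Finset Ei} {J : Finset ℕ}
    (hkey : (S₀, J) ∈ (RRU M X z H k V).image (ky z H)) :
    |(((RRU M X z H k V).filter fun S => ky z H S = (S₀, J) ∧
        (NdN (sm z S) (la z S) ∧ NtS M S ∧ GdM M S)).card : ℝ) -
      c9 * (((RRU M X z H k V).filter fun S => ky z H S = (S₀, J) ∧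
        (NdN (sm z S) (la z S) ∧ NtS M S)).card : ℝ)| ≤
    9 * (1 / 3 : ℝ) ^ V * (((RRU M X z H k V).filter fun S => ky z H S = (S₀, J) ∧ True).card : ℝ) +
      (3 ^ (9 * k ^ 2) * κ) * (X * (1 / ((∏ p ∈ S₀, nrm p : ℕ) : ℝ))) := by
  obtain ⟨h₀O, h₀, hJi, hCd, hJf⟩ := key_facts hM hH hkey
  obtain ⟨cM, c4, c5, c6⟩ := hCd
  have hcJ : Fintype.card J = J.card := Fintype.card_coe J
  have hCmem : ∀ i : J, ∀ p ∈ CC z H i, Pq p ∧ z < nrm p ∧ nrm p ≤ XX H (i.1 / 9) := by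
    intro i p hp
    obtain ⟨k1, k2, k3⟩ := (mem_CC hH).1 hp
    refine ⟨k1, k2, ?_⟩
    unfold CC at hp
    rw [Finset.mem_filter, mem_QB] at hp
    exact hp.1.1
  have hdis : ∀ i l : J, i ≠ l → Disjoint (CC z H (i : ℕ)) (CC z H (l : ℕ)) := by
    intro i l hil
    rw [Finset.disjoint_left]
    intro p hp hp'
    have h5 := ((mem_CC hH).1 hp).2.2
    have h6 := ((mem_CC hH).1 hp').2.2
    exact hil (Subtype.ext (h5.symm.trans h6))
  have hzX : ∀ i : J, z ≤ XX H (i.1 / 9) := fun i => (hJf i i.2).1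
  have hHB : HB (fun i : J => CC z H i) (fun i : J => 16 * XX H (i.1 / 9)) κ :=
    hb_box hb1 _ _ hz hκ h1 (fun i => by have := hzX i; omega)
      (fun i p hp => by
        obtain ⟨k1, k2, k3⟩ := hCmem i p hp
        exact ⟨k1, by omega⟩) hdis
  have hcard : ∀ i : J, (CC z H (i : ℕ)).card ≤ 16 * XX H (i.1 / 9) := by
    intro i
    refine (Finset.card_filter_le _ _).trans (card_QB_le ?_)
    have := hzX i
    omega
  have hnq : ∀ i : J, ∀ π ∈ CC z H (i : ℕ), ∀ ρ ∈ CC z H (i : ℕ),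
      nq π = nq ρ ∧ yq π = yq ρ := by
    intro i π hπ ρ hρ
    have h5 := ((mem_CC hH).1 hπ).2.2
    have h6 := ((mem_CC hH).1 hρ).2.2
    have h7 : 3 * (yq π).val + (nq π).val = 3 * (yq ρ).val + (nq ρ).val := by
      rw [← ph_mod H, ← ph_mod H, h5, h6]
    have g1 := ZMod.val_lt (nq π)
    have g2 := ZMod.val_lt (nq ρ)
    constructor
    · apply ZMod.val_injective 3
      omega
    · apply ZMod.val_injective 3
      omega
  have hbox := box_dec hbx J inferInstance (fun i : J => CC z H i)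
    (fun i : J => 16 * XX H (i.1 / 9)) κ M S₀ cM hκ hcard hHB h₀O (fun i p hp => by
      obtain ⟨k1, k2, k3⟩ := hCmem i p hp
      refine ⟨k1, fun h => ?_⟩
      have := h₀ p h
      omega) hdis hnq (by rw [hcJ]; omega)
  have e1 : (((Fintype.piFinset fun i : J => CC z H i).filter
      fun p => NdN S₀ (univ.image p) ∧ NtS M (S₀ ∪ univ.image p) ∧
        GdM M (S₀ ∪ univ.image p)).card) =
      ((RRU M X z H k V).filter fun S => ky z H S = (S₀, J) ∧
        (NdN (sm z S) (la z S) ∧ NtS M S ∧ GdM M S)).card := by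
    refine Eq.trans (fcc ?_) ((key_bij hM hH hkey (fun S => NdN (sm z S) (la z S) ∧
      NtS M S ∧ GdM M S)).trans
      (fcc fun _ _ => Iff.rfl))
    intro p hp
    rw [Fintype.mem_piFinset] at hp
    rw [sm_fill hH h₀ hp, la_fill hH h₀ hp]
  have e2 : (((Fintype.piFinset fun i : J => CC z H i).filter
      fun p => NdN S₀ (univ.image p) ∧ NtS M (S₀ ∪ univ.image p)).card) =
      ((RRU M X z H k V).filter fun S => ky z H S = (S₀, J) ∧
        (NdN (sm z S) (la z S) ∧ NtS M S)).card := by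
    refine Eq.trans (fcc ?_) ((key_bij hM hH hkey (fun S => NdN (sm z S) (la z S) ∧
      NtS M S)).trans
      (fcc fun _ _ => Iff.rfl))
    intro p hp
    rw [Fintype.mem_piFinset] at hp
    rw [sm_fill hH h₀ hp, la_fill hH h₀ hp]
  rw [← e1, ← e2]
  have e3 : (((Fintype.piFinset fun i : J => CC z H i).filter
      fun p => NdN S₀ (univ.image p)).card : ℝ) ≤
      (((RRU M X z H k V).filter fun S => ky z H S = (S₀, J) ∧ True).card : ℝ) := by
    have e4 : (((Fintype.piFinset fun i : J => CC z H i).filter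
        fun p => NdN S₀ (univ.image p)).card) =
        ((RRU M X z H k V).filter fun S => ky z H S = (S₀, J) ∧ NdN (sm z S) (la z S)).card := by
      refine Eq.trans (fcc ?_) ((key_bij hM hH hkey (fun S => NdN (sm z S) (la z S))).trans
        (fcc fun _ _ => Iff.rfl))
      intro p hp
      rw [Fintype.mem_piFinset] at hp
      rw [sm_fill hH h₀ hp, la_fill hH h₀ hp]
    rw [e4]
    have : (RRU M X z H k V).filter (fun S => ky z H S = (S₀, J) ∧ NdN (sm z S) (la z S)) ⊆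
        (RRU M X z H k V).filter fun S => ky z H S = (S₀, J) ∧ True := by
      intro S hS
      rw [Finset.mem_filter] at hS ⊢
      exact ⟨hS.1, hS.2.1, trivial⟩
    exact_mod_cast Finset.card_le_card this
  refine hbox.trans ?_
  have hr : 3 * ((3 : ℝ) ^ (S₀.card + 2) / 3 ^ Fintype.card J) ≤ 9 * (1 / 3 : ℝ) ^ V := by
    have hr1 : (3 : ℝ) ^ (S₀.card + 2) / 3 ^ Fintype.card J ≤ 3 * (1 / 3 : ℝ) ^ V := by
      rw [hcJ, div_le_iff₀ (by positivity), one_div, inv_pow, mul_assoc, inv_mul_eq_div,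
        mul_div_assoc', le_div_iff₀ (by positivity), ← pow_add, ← pow_succ']
      exact pow_le_pow_right₀ (by norm_num) (by omega)
    linarith
  have hJK : J.card ≤ k := by omega
  have hSK : S₀.card ≤ k := by omega
  obtain ⟨m, hm⟩ : ∃ m : ℕ, m = (prs J).card := ⟨_, rfl⟩
  have hpr : m ≤ k * k := by
    rw [hm]
    refine (prs_card J).trans ?_
    rw [hcJ]
    exact Nat.mul_le_mul hJK hJK
  rw [← hm]
  have hN0 : (0 : ℝ) < ((∏ p ∈ S₀, nrm p : ℕ) : ℝ) := by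
    exact_mod_cast Finset.prod_pos fun p hp => nrm_one_le (h₀O p hp)
  have hprod : ∏ j : J, ((16 * XX H (j.1 / 9) : ℕ) : ℝ) ≤
      3 ^ (3 * k) * (X * (1 / ((∏ p ∈ S₀, nrm p : ℕ) : ℝ))) := by
    have h5 : ∏ j : J, ((16 * XX H (j.1 / 9) : ℕ) : ℝ) =
        16 ^ J.card * ((∏ i ∈ J, XX H (i / 9) : ℕ) : ℝ) := by
      rw [← Finset.prod_coe_sort J (fun i => XX H (i / 9))]
      push_cast
      rw [Finset.prod_mul_distrib, Finset.prod_const, Finset.card_univ, hcJ]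
    have h6 : ((∏ i ∈ J, XX H (i / 9) : ℕ) : ℝ) ≤ X * (1 / ((∏ p ∈ S₀, nrm p : ℕ) : ℝ)) := by
      rw [mul_one_div, le_div_iff₀ hN0, mul_comm]
      exact_mod_cast c5
    have h7 : (16 : ℝ) ^ J.card ≤ 3 ^ (3 * k) := by
      calc (16 : ℝ) ^ J.card ≤ 27 ^ J.card := pow_le_pow_left₀ (by norm_num) (by norm_num) _
        _ = 3 ^ (3 * J.card) := by rw [pow_mul]; norm_num
        _ ≤ 3 ^ (3 * k) := pow_le_pow_right₀ (by norm_num) (by omega)
    rw [h5]
    gcongr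
  have hpw : (3 : ℝ) ^ (S₀.card * Fintype.card J + m) * 3 ^ (3 * k) ≤ 3 ^ (9 * k ^ 2) := by
    rw [← pow_add]
    apply pow_le_pow_right₀ (by norm_num)
    rw [hcJ]
    have h5 : S₀.card * J.card ≤ k * k := Nat.mul_le_mul hSK hJK
    have h6 : k ≤ k * k := by
      rcases Nat.eq_zero_or_pos k with h | h
      · rw [h]
      · exact Nat.le_mul_of_pos_left k h
    nlinarith
  refine add_le_add ?_ ?_
  · exact mul_le_mul hr e3 (Nat.cast_nonneg _) (by positivity)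
  · have hX1 : (0 : ℝ) ≤ X * (1 / ((∏ p ∈ S₀, nrm p : ℕ) : ℝ)) := by positivity
    calc (3 : ℝ) ^ (S₀.card * Fintype.card J + m) *
        (κ * ∏ j : J, ((16 * XX H (j.1 / 9) : ℕ) : ℝ)) ≤
        3 ^ (S₀.card * Fintype.card J + m) *
          (κ * (3 ^ (3 * k) * (X * (1 / ((∏ p ∈ S₀, nrm p : ℕ) : ℝ))))) := by gcongr
      _ = (3 ^ (S₀.card * Fintype.card J + m) * 3 ^ (3 * k)) *
          (κ * (X * (1 / ((∏ p ∈ S₀, nrm p : ℕ) : ℝ)))) := by ring
      _ ≤ 3 ^ (9 * k ^ 2) * (κ * (X * (1 / ((∏ p ∈ S₀, nrm p : ℕ) : ℝ)))) := by gcongr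
      _ = _ := by ring

end Key

open Key in
theorem key (hB1 : S_BIL) : S_KEYM := by
  intro hbx
  obtain ⟨C₁, hC₁, hb1⟩ := hB1
  refine ⟨C₁, hC₁, ?_⟩
  intro M X z H k V N κ hM hX hH hz hV hκ h1 hN
  set T := (RRU M X z H k V).image (ky z H) with hT
  have hfib : ∀ P : Finset Ei → Prop, (((RRU M X z H k V).filter fun S => P S).card : ℝ) =
      ∑ k' ∈ T, (((RRU M X z H k V).filter fun S => ky z H S = k' ∧ P S).card : ℝ) := by
    intro P
    rw [Finset.card_eq_sum_card_fiberwise (f := ky z H) (t := T) (by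
      intro S hS
      rw [Finset.mem_coe, Finset.mem_filter] at hS
      exact Finset.mem_coe.2 (Finset.mem_image_of_mem _ hS.1))]
    push_cast
    refine Finset.sum_congr rfl fun k' _ => ?_
    congr 2
    ext S
    simp only [Finset.mem_filter]
    tauto
  have hall : ((RRU M X z H k V).card : ℝ) =
      ∑ k' ∈ T, (((RRU M X z H k V).filter fun S => ky z H S = k' ∧ True).card : ℝ) := by
    rw [Finset.card_eq_sum_card_fiberwise (f := ky z H) (t := T) (by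
      intro S hS
      exact Finset.mem_coe.2 (Finset.mem_image_of_mem _ hS))]
    push_cast
    exact Finset.sum_congr rfl fun k' _ => congrArg _ (fcc fun _ _ => by tauto)
  have q1 : (((RRU M X z H k V).filter fun S => NdN (sm z S) (la z S) ∧
      NtS M S ∧ GdM M S).card : ℝ) =
      ∑ k' ∈ T, (((RRU M X z H k V).filter fun S => ky z H S = k' ∧
        (NdN (sm z S) (la z S) ∧ NtS M S ∧ GdM M S)).card : ℝ) :=
    (congrArg _ (fcc fun _ _ => Iff.rfl)).trans ((hfib fun S => NdN (sm z S) (la z S) ∧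
      NtS M S ∧ GdM M S).trans
      (Finset.sum_congr rfl fun k' _ => congrArg _ (fcc fun _ _ => Iff.rfl)))
  have q2 : (((RRU M X z H k V).filter fun S => NdN (sm z S) (la z S) ∧ NtS M S).card : ℝ) =
      ∑ k' ∈ T, (((RRU M X z H k V).filter fun S => ky z H S = k' ∧
        (NdN (sm z S) (la z S) ∧ NtS M S)).card : ℝ) :=
    (congrArg _ (fcc fun _ _ => Iff.rfl)).trans ((hfib fun S => NdN (sm z S) (la z S) ∧
      NtS M S).trans
      (Finset.sum_congr rfl fun k' _ => congrArg _ (fcc fun _ _ => Iff.rfl)))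
  rw [q1, q2, Finset.mul_sum, ← Finset.sum_sub_distrib, hall, Finset.mul_sum]
  refine (Finset.abs_sum_le_sum_abs _ _).trans ?_
  have h3 : ∑ k' ∈ T, |(((RRU M X z H k V).filter fun S => ky z H S = k' ∧
      (NdN (sm z S) (la z S) ∧ NtS M S ∧ GdM M S)).card : ℝ) -
      c9 * (((RRU M X z H k V).filter fun S =>
      ky z H S = k' ∧ (NdN (sm z S) (la z S) ∧ NtS M S)).card : ℝ)| ≤
      ∑ k' ∈ T, (9 * (1 / 3 : ℝ) ^ V * (((RRU M X z H k V).filter fun S =>
      ky z H S = k' ∧ True).card : ℝ) +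
      (3 ^ (9 * k ^ 2) * κ) * (X * (1 / ((∏ p ∈ k'.1, nrm p : ℕ) : ℝ)))) := by
    refine Finset.sum_le_sum fun k' hk => ?_
    obtain ⟨S₀, J⟩ := k'
    exact per_key hbx hb1 hM hH hz hκ hV h1 hk
  refine h3.trans ?_
  rw [Finset.sum_add_distrib]
  refine add_le_add ?_ ?_
  · exact le_rfl
  exact keg_err hM hX hH hz hκ hN fun k' hk => hk

end Pool.Agent.D0H69.L0D
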