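import Pool.Agent.D0H69.L0D.Box
import Pool.Agent.D0H69.L0D.Key
import Pool.Agent.D0H69.L0D.Asy
import Pool.Agent.D0H69.L0D.Tot
import Pool.Agent.D0H10.L9D.Fin

/-!
# Project L0, module DENM: the exact proportion over the Eisenstein integers
-/

set_option autoImplicit false

open scoped Classical
open Filter

namespace Pool.Agent.D0H69.L0D

open Pool.Agent.Y692.QS (Ei w nr)
open Pool.Agent.Y703.CT (Dt pD)
open Pool.Agent.Y703.XK (c9)
open Pool.Agent.R419.KF (el)
open Pool.Agent.N883.FF (ClU ClP)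
open Pool.Agent.D0H69.L3K (hc9 fin_nr)
open Pool.Agent.D0H10.L9D (badN)
open Pool.Agent.D0H69.L0 (Ntl KerM S_DENM)

/-- the asymptotics for one `M` -/
theorem asyM : AsyM :=
  asy hc9 badN (key Pool.Agent.Y363.XK.t_BIL)
    (box Pool.Agent.Y710.XK.t_EQ (Pool.Agent.Y85.XK.t_LA Pool.Agent.Y804.XK.t_SYM hc9))

/-- **L0-DENM.** The exact proportion over the Eisenstein integers: among the cube-free primary
elements of norm `1` modulo `9` the proportion of those for which the kernel of the bordered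
Laplacian consists of the constants tends to `c9 = 0.639…`; `T` is any property equivalent to
`KerM` for the nonempty products of primary primes. -/
theorem denm : S_DENM := by
  intro T hT
  have hcl : ∀ X : ℕ, {D : Ei | nr D ≤ X ∧ ClP D ∧ (9 : ℤ) ∣ nr D - 1}.ncard = Tot.N0 X :=
    Tot.card_N0
  have hgt : ∀ X : ℕ, {D : Ei | nr D ≤ X ∧ ClP D ∧ ((9 : ℤ) ∣ nr D - 1 ∧ (D ≠ 1 ∧ T D))}.ncard =
      Tot.Gt X := by
    intro X
    refine (Pool.Agent.N883.FF.Tot.card_eq X (fun M S => NtS M S ∧ GdM M S)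
      (fun D => (9 : ℤ) ∣ nr D - 1 ∧ (D ≠ 1 ∧ T D)) fun M S hMS => ?_).trans
      (Finset.sum_congr rfl fun M _ => Pool.Agent.XLK.fcc fun _ _ => Iff.rfl)
    rw [Tot.nt_iff hMS]
    refine and_congr_right fun hN => ?_
    rcases S.eq_empty_or_nonempty with rfl | hne
    · have hM : M = ∅ := Finset.subset_empty.1 hMS.2
      subst hM
      have hel : el ∅ ∅ = 1 := by
        unfold el
        simp
      rw [hel]
      refine iff_of_false (fun h => h.1 rfl) fun h => ?_
      have h1 := (h (fun _ => 0) 1 (fun π hπ => absurd hπ (Finset.notMem_empty _)) (by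
        rw [Finset.sum_empty, Finset.sum_empty, mul_zero, add_zero])).2
      exact absurd h1 (by decide)
    · obtain ⟨n, π, e, hdt, hel, hn, hg⟩ := datt hMS hne
      have hne1 : el M S ≠ 1 := by
        rw [hel]
        intro h
        have := Pool.Agent.R419.CE.nunit hdt
        rw [h] at this
        exact this isUnit_one
      rw [and_iff_right hne1, hel, hT n π e hdt (hn.1 hN)]
      exact hg.symm
  have hlim := Tot.lim hc9 asyM
    (fun X => {D : Ei | nr D ≤ X ∧ ClP D ∧ (9 : ℤ) ∣ nr D - 1 ∧ T D}.ncard) fun X => by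
      rw [← hgt X]
      constructor
      · have hfin : {D : Ei | nr D ≤ X ∧ ClP D ∧ ((9 : ℤ) ∣ nr D - 1 ∧ (D ≠ 1 ∧ T D))}.Finite :=
          (fin_nr X).subset fun D hD => hD.1
        refine (Set.ncard_le_ncard (t := insert 1
          {D : Ei | nr D ≤ X ∧ ClP D ∧ ((9 : ℤ) ∣ nr D - 1 ∧ (D ≠ 1 ∧ T D))}) ?_
          (hfin.insert 1)).trans (Set.ncard_insert_le _ _)
        rintro D ⟨h1, h2, h3, h4⟩
        by_cases hD : D = 1
        · exact Or.inl hD
        · exact Or.inr ⟨h1, h2, h3, hD, h4⟩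
      · have hfin : {D : Ei | nr D ≤ X ∧ ClP D ∧ (9 : ℤ) ∣ nr D - 1 ∧ T D}.Finite :=
          (fin_nr X).subset fun D hD => hD.1
        refine (Set.ncard_le_ncard (fun D hD => ?_) hfin).trans (Nat.le_succ _)
        exact ⟨hD.1, hD.2.1, hD.2.2.1, hD.2.2.2.2⟩
  refine hlim.congr fun X => ?_
  rw [hcl]

end Pool.Agent.D0H69.L0D
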