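import Pool.Agent.D0H10.L9D.Stm
import Pool.Agent.D0H69.L0.StmD

/-!
# Project L0, module DENM: statements of the counting part

Everything as in `Pool/Agent/D0H10/L9D/Stm.lean` (helper10), for the bordered kernel of the class of
norm `1` modulo `9`: the constants are in the kernel.
-/

set_option autoImplicit false
set_option linter.unusedVariables false

open scoped Classical

namespace Pool.Agent.D0H69.L0D

open Finset
open Pool.Agent.Y692.QS (Ei w nr toC)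
open Pool.Agent.Y715.T.Rec (cs)
open Pool.Agent.Y715.T.RecG (Pq)
open Pool.Agent.Y699.E (ez nrm QB SB PS mf xab lg)
open Pool.Agent.Y703.CX (jj XX eL zz kk)
open Pool.Agent.Y703.XK (sm la bl prs HB c9 S_BIL S_EQ S_LA S_C9)
open Pool.Agent.R419.KF (wt SG)
open Pool.Agent.N883.FF (nq ClU SU RRU ClP)
open Pool.Agent.D0H43.L3 (yq)
open Pool.Agent.D0H10.L9D (NdN)

/-- the norm is `1` modulo `9` -/
def NtS (M S : Finset Ei) : Prop := ∑ π ∈ S, wt M π * nq π = 0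

/-- all solutions of the bordered system are constants -/
def GdM (M S : Finset Ei) : Prop :=
  ∀ (v : Ei → ZMod 3) (a : ZMod 3),
    (∀ π ∈ S, ∑ ρ ∈ S, wt M ρ * cs π ρ * (v ρ - v π) + a * nq π = 0) →
    ∑ ρ ∈ S, wt M ρ * v ρ * nq ρ + a * ∑ ρ ∈ S, wt M ρ * yq ρ = 0 →
    (∀ π ∈ S, ∀ ρ ∈ S, v π = v ρ) ∧ a = 0

/-- the count in a box on which `nq` and `yq` are constant. -/
def S_BOXM : Prop := ∀ (ι : Type) [Fintype ι] [LinearOrder ι]
  (C : ι → Finset Ei) (X : ι → ℕ) (κ : ℝ) (M S₀ : Finset Ei), M ⊆ S₀ → 0 ≤ κ →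
  (∀ i, (C i).card ≤ X i) → HB C X κ → (∀ u ∈ S₀, Pq u) → (∀ i, ∀ π ∈ C i, Pq π ∧ π ∉ S₀) →
  (∀ i l, i ≠ l → Disjoint (C i) (C l)) →
  (∀ i, ∀ π ∈ C i, ∀ ρ ∈ C i, nq π = nq ρ ∧ yq π = yq ρ) →
  S₀.card + 2 < Fintype.card ι →
  |(((Fintype.piFinset C).filter fun p => NdN S₀ (univ.image p) ∧ NtS M (S₀ ∪ univ.image p) ∧
      GdM M (S₀ ∪ univ.image p)).card : ℝ) -
      c9 * (((Fintype.piFinset C).filter fun p => NdN S₀ (univ.image p) ∧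
        NtS M (S₀ ∪ univ.image p)).card : ℝ)| ≤
    3 * (3 ^ (S₀.card + 2) / 3 ^ Fintype.card ι) *
      (((Fintype.piFinset C).filter fun p => NdN S₀ (univ.image p)).card : ℝ) +
    3 ^ (S₀.card * Fintype.card ι + (prs ι).card) * (κ * ∏ j, (X j : ℝ))

/-- the sum over the boxes. -/
def S_KEYM : Prop := S_BOXM → ∃ C : ℝ, 1 ≤ C ∧
  ∀ (M : Finset Ei) (X z H k V N : ℕ) (κ : ℝ), (∀ q ∈ M, nrm q ≤ z) → 1 ≤ X → 1 ≤ H → 1 ≤ z →
  2 ≤ V → 0 ≤ κ → C ≤ κ ^ 24 * z → (H : ℝ) * Real.log X < N →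
  |(((RRU M X z H k V).filter fun S => NdN (sm z S) (la z S) ∧ NtS M S ∧ GdM M S).card : ℝ) -
      c9 * (((RRU M X z H k V).filter fun S => NdN (sm z S) (la z S) ∧ NtS M S).card : ℝ)| ≤
    9 * (1 / 3 : ℝ) ^ V * ((RRU M X z H k V).card : ℝ) +
    (9 * N + 9 : ℝ) ^ k * (3 ^ (9 * k ^ 2 + 9) * κ) * (X * (1 + Real.log X))

/-- the asymptotics for one `M`. -/
def AsyM : Prop := ∀ (M : Finset Ei) (ε : ℝ),
  0 < ε → ∃ X₀ : ℕ, ∀ X : ℕ, X₀ ≤ X →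
    |(((SU M X).filter fun S => NtS M S ∧ GdM M S).card : ℝ) -
      c9 * (((SU M X).filter (NtS M)).card : ℝ)| ≤ ε * X

end Pool.Agent.D0H69.L0D
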